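import Mathlib

set_option autoImplicit false

/-!
# MP_2eaf66_an: lower bound of the zeta-invariants, interface

`Z_k(a)` is the limit of `Δ = tr S^(2k) - tr (J S)^(2k)` for the finite sections
`S_xy = sqrt |x| * c (y - x) * sqrt |y|` (`Run7/h923/ZetaPath.lean`), `J` the diagonal matrix of signs.
With `D = S^2 - J S^2 J` one has `∑ over x of (∑ over y of |D_xy|^2)^(k/2) <= 4^(k-1) Δ` (MAT1, MAT2).
For `n, m > 0` the entry `D_(n,-m)` is `2 sqrt (n m)` times the conjugate of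
`U n m = ∑ over l of |l| c (n - l) c (m + l)`, and second differences of `U` along `n + m = M`
are `2 c n c m` (SD).  HARM, BLK deduce the lower bound.  Each `S_...` has its proof in the docstring.
-/

namespace Run7.h747.ZB

open Matrix

noncomputable section

/-- PIECE MAT1 (100 lines, reflections of words, uses `Run7.h923.ZT.word_sq_le`, `word_le`, `refl`).
Write `t w` for the real part of `tr (W σ S w)`, `w` a list of `2 k` Booleans, and `M = tr S^(2k)`, the value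
at `replicate (2k) false` (`= fro (S^k)`, nonnegative); `|t w| <= M` by `word_le`.  Let
`V r = refl (replicate r false ++ replicate (k-1-r) true)`, `0 <= r <= k-2`.  By `word_sq_le`
(`b = c = true`, `l = m = replicate (k-1) true`), `t (1^(2k))^2 <= t (V 0)^2`, and more generally if
`w = (b :: l) ++ (c :: m)` then `(t w)^2 <= t (refl l) * t (refl m) <= t (refl l) * M`, so
`M - t (refl l) <= 2 (M - t w)` (if `t w >= 0` use `t (refl l) * M >= (t w)^2 >= M (2 t w - M)`; if `t w < 0`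
then `M - t (refl l) <= M <= 2 (M - t w)` as `t (refl l) = fro >= 0`).
The cyclic word `V r = 0 1^(k-1-r) 0^(2r+1) 1^(k-1-r)` contains the factor
`l' = 0^(r+1) 1^(k-2-r)`, so (rotate: `trace_rotate`) `M - t (V (r+1)) <= 2 (M - t (V r))`.  After `k-1` steps:
`V (k-2) = 0 1 0^(2k-3) 1`, and `tr W (V (k-2)) = tr (S J S^(2k-2) J S)`. -/
def S_MAT1 : Prop := ∀ (I : Type) [Fintype I] [DecidableEq I] (σ : I → ℂ) (S : Matrix I I ℂ) (k : ℕ),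
  2 ≤ k → (∀ x, σ x = 1 ∨ σ x = -1) → Sᴴ = S →
  ((S ^ (2 * k)).trace).re -
      ((S * S * (diagonal σ * S ^ (2 * k - 2) * diagonal σ)).trace).re ≤
    2 ^ (k - 1) * ((S ^ (2 * k)).trace - ((diagonal σ * S) ^ (2 * k)).trace).re

/-- PIECE MAT2 (150 lines, spectral theorem).  `J = diagonal σ`, `P = S^2`, `Q = J P J`, `D = P - Q`, `J D J = - D`,
`m = k - 2`.  (1) `tr (P^m D^2) = tr S^(2k) - 2 Re tr (S^(2k-2) J S^2 J) + tr (S^(2k-4) J S^4 J)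
<= 2 (tr S^(2k) - Re tr (S^2 J S^(2k-2) J))` since `tr (S^(2k-4) J S^4 J) <= tr S^(2k)` (`word_le` of
`Run7.h923.ZT`, or Cauchy-Schwarz and the spectral theorem).  (2) Let `f` run over an orthonormal basis of
eigenvectors of `D`, `D f = d f`.  `tr (P^m D^2) = ∑ d^2 <P^m f, f>`, also `= tr (Q^m D^2)` (conjugate by `J`),
`<P^m f, f> = |S^m f|^2 >= |S f|^(2m) = <P f, f>^m` (log-convexity of `|S^j f|`), so
`2 tr (P^m D^2) >= ∑ d^2 (<P f, f>^m + <Q f, f>^m) >= ∑ d^2 2^(1-m) <(P + Q) f, f>^m >= 2^(1-m) ∑ |d|^(m+2)`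
(`add_pow_le`; `P, Q >= 0` so `<(P+Q) f, f> >= |<D f, f>| = |d|`).
(3) `∑ over y of |D_xy|^2 = (D^2)_xx = ∑ over f of |f x|^2 d^2`, and by Jensen
(`Real.rpow_arith_mean_le_arith_mean_rpow`, weights `|f x|^2` of sum `1`) its power `k/2` is at most
`∑ |f x|^2 |d|^k`; sum over `x`. -/
def S_MAT2 : Prop := ∀ (I : Type) [Fintype I] [DecidableEq I] (σ : I → ℂ) (S : Matrix I I ℂ) (k : ℕ),
  2 ≤ k → (∀ x, σ x = 1 ∨ σ x = -1) → Sᴴ = S →
  ∑ x, (∑ y, ‖(S * S - diagonal σ * (S * S) * diagonal σ) x y‖ ^ 2) ^ ((k : ℝ) / 2) ≤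
    2 ^ (k - 1) * (((S ^ (2 * k)).trace).re -
      ((S * S * (diagonal σ * S ^ (2 * k - 2) * diagonal σ)).trace).re)

/-- PIECE CONV (60 lines, finite sums).  `∑ over M of |∑ b q b (M-q)|^2 = ∑ over d of |C d|^2`,
`C d = ∑ over t of b t * conj (b (t + d))`, and `C 0 = ∑ |b q|^2`.  (Or: Parseval and Cauchy-Schwarz for the
function `∑ b q e^(iqx)`, or a discrete Fourier transform.) -/
def S_CONV : Prop := ∀ (b : ℤ → ℂ) (A B : ℤ), (∀ q, q < A ∨ B < q → b q = 0) →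
  (∑ q ∈ Finset.Icc A B, ‖b q‖ ^ 2) ^ 2 ≤
    ∑ M ∈ Finset.Icc (2 * A) (2 * B), ‖∑ q ∈ Finset.Icc A B, b q * b (M - q)‖ ^ 2

/-- Rapid decay. -/
def Dec (c : ℤ → ℂ) : Prop := ∀ p : ℕ, ∃ K : ℝ, ∀ n : ℤ, ‖c n‖ * (1 + |(n : ℝ)|) ^ p ≤ K

/-- The function `U`. -/
def U (c : ℤ → ℂ) (n m : ℤ) : ℂ := ∑' l : ℤ, ((|l| : ℤ) : ℂ) * (c (n - l) * c (m + l))

/-- PIECE SD (60 lines, summability; then shift `l`: `|l-1| - 2 |l| + |l+1| = 2` for `l = 0`, else `0`). -/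
def S_SD : Prop := ∀ c : ℤ → ℂ, Dec c →
  (∀ n m : ℤ, Summable fun l : ℤ => ((|l| : ℤ) : ℂ) * (c (n - l) * c (m + l))) ∧
  ∀ n m : ℤ, U c (n - 1) (m + 1) - 2 * U c n m + U c (n + 1) (m - 1) = 2 * (c n * c m)

/-- PIECE HARM (200 lines, finite sums), from `S_CONV`, `S_SD`.  Let `L = 7 N`,
`α q = ((q - N) (8 N - q))^2` for `N <= q <= 8 N` and `0` otherwise.  `|α| <= L^4`,
`|α (q+1) - α q| <= 2 L^3`, `|α (q+1) - 2 α q + α (q-1)| <= 5 L^2` (inside it is `2 e^2 - 4 t + 2`,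
`e = 9 N - 2 q`, `t = (q - N) (8 N - q)`; at `q = N`, `8 N` it is `(L-1)^2`).  For fixed `M` put
`ψ q = α q * α (M - q)`; its second difference is
`α'' β + α β'' - (α' β'^- + α'^- β')` with the obvious one-sided differences, so at most `18 L^6`, and
it vanishes unless `q` and `M - q` are in `[N, 8 N]`.  Summation by parts and `S_SD`:
`Ψ M = ∑ ψ q c q c (M-q) = (1/2) ∑ ψ'' q U (M-q) q`, so `|Ψ M|^2 <= 81 L^12 (L+1) ∑ |U (M-q) q|^2`,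
the sum over `q` with `q, M - q` in `[N, 8 N]`, and `(M-q) q >= N^2`.
By `S_CONV` for `b = α c`, `∑ over M of |Ψ M|^2 >= (∑ α^2 |c|^2)^2 >= (256 N^8 ∑ over [2N,4N) of |c|^2)^2`.
(`81 * 7^12 * 8 / 256^2 < 10^9`.) -/
def S_HARM : Prop := ∀ c : ℤ → ℂ, Dec c → ∀ N : ℕ, 1 ≤ N →
  (N : ℝ) ^ 5 * (∑ q ∈ Finset.Ico (2 * (N : ℤ)) (4 * N), ‖c q‖ ^ 2) ^ 2 ≤
    10 ^ 9 * ∑ n ∈ Finset.Icc (N : ℤ) (8 * N), ∑ m ∈ Finset.Icc (N : ℤ) (8 * N),
      (n : ℝ) * m * ‖U c n m‖ ^ 2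

/-- PIECE BLK (150 lines, finite sums, real powers), from `S_HARM`.  Let
`R m = ∑ over n in [1, 8 * 2^J] of 4 n m |U n m|^2`, `N = 2^j`.  By `S_HARM`
`(∑ over block j of |c|^2)^k <= (10^9 N^(-5) ∑ over m in [N, 8N] of R m)^(k/2)`, and
`(∑ over m in [N, 8N] of R m)^(k/2) <= (8 N)^(k/2-1) ∑ (R m)^(k/2)` (`Real.rpow_sum_le_const_mul_sum_rpow`);
`N^(2k+1) * N^(-5k/2) * N^(k/2-1) = 1`; each `m` is in at most `4` of the intervals `[2^j, 8 * 2^j]`.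
Finally `∑ over q in [2N,4N) of q^(2k+1) |c q|^(2k) <= (4N)^(2k+1) (∑ over the block of |c|^2)^k`. -/
def S_BLK : Prop := ∀ k : ℕ, 2 ≤ k → ∃ C : ℝ, 0 < C ∧ ∀ c : ℤ → ℂ, Dec c → ∀ Z : ℝ,
  (∀ R : ℕ, ∑ m ∈ Finset.Icc (1 : ℤ) R, (∑ n ∈ Finset.Icc (1 : ℤ) R,
    4 * ((n : ℝ) * m) * ‖U c n m‖ ^ 2) ^ ((k : ℝ) / 2) ≤ Z) →
  ∀ J : ℕ, (∑ j ∈ Finset.range J, ((2 : ℝ) ^ j) ^ (2 * k + 1) *
    (∑ q ∈ Finset.Ico (2 * (2 : ℤ) ^ j) (4 * 2 ^ j), ‖c q‖ ^ 2) ^ k ≤ C * Z) ∧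
    ∑ q ∈ Finset.Ico (2 : ℕ) (2 * 2 ^ J), (q : ℝ) ^ (2 * k + 1) * ‖c (q : ℤ)‖ ^ (2 * k) ≤ C * Z

/-- PIECE SUMM (150 lines).  The number `N_j` (the `finsum`) is at most
`2 (2 B + 1) (2 B)^(m+1)` with `B = ∑ over i of |j 0| + ... + |j i|`-like bound `(m+1) ∑ |j i|`
(`Run7.h923.ZT.term_zero`: the terms vanish for `|n| > ∑ over i of |s_i|`), a polynomial bound, so the
term is at most `C ∏ (1 + |j i|)^(-2)` by `Dec`; `∏ over i of (1 + |j i|)^(-2)` is summable over `Fin (m+1) → ℤ`,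
hence over the subtype. -/
def S_SUMM : Prop := ∀ (m : ℕ) (c : ℤ → ℂ), Even (m + 1) → Dec c →
  Summable fun j : {j : Fin (m + 1) → ℤ // ∑ i, j i = 0} =>
      (((∑ᶠ n : ℤ, (|∏ i : Fin (m + 1), (n + ∑ l ∈ Finset.Iio i, j.1 l)|
        - ∏ i : Fin (m + 1), (n + ∑ l ∈ Finset.Iio i, j.1 l))) : ℤ) : ℂ) *
        ∏ i : Fin (m + 1), c (j.1 i)

/-- PIECE DEC (100 lines): rapid decay of the Fourier coefficients of a smooth periodic function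
(integration by parts `p` times; `fourierCoeffOn_of_hasDerivAt`, or directly
`intervalIntegral.integral_mul_deriv_eq_deriv_mul`). -/
def S_DEC : Prop := ∀ a : ℝ → ℝ, ContDiff ℝ (⊤ : ℕ∞) a → Function.Periodic a (2 * Real.pi) →
  Dec fun n => (1 / (2 * (Real.pi : ℂ))) * ∫ x in (0 : ℝ)..(2 * Real.pi),
    (a x : ℂ) * Complex.exp (-(Complex.I * ((n : ℤ) : ℂ) * (x : ℂ)))

end

end Run7.h747.ZB
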