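import Pool.Agent.Run7.h747.ZB.Lim

set_option autoImplicit false

/-!
# MP_2eaf66_an: the case `k = 1`
-/

namespace Run7.h747.ZB

open Matrix Run7.h923.ZT Filter Topology

noncomputable section

theorem F_two (c : ℤ → ℂ) (hc : ∀ n, c (-n) = star (c n)) (p : Fin (1 + 1) → ℤ) :
    F c p = (((|p 0 * p 1| - p 0 * p 1 : ℤ) : ℝ) * ‖c (p 1 - p 0)‖ ^ 2 : ℝ) := by
  unfold F
  rw [Fin.prod_univ_two, Fin.prod_univ_two]
  have h0 : (0 : Fin (1 + 1)) + 1 = 1 := rfl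
  have h1 : (1 : Fin (1 + 1)) + 1 = 0 := rfl
  rw [h0, h1, show p 0 - p 1 = -(p 1 - p 0) by ring, hc, Complex.star_def, Complex.mul_conj,
    Complex.normSq_eq_norm_sq, Complex.ofReal_mul, Complex.ofReal_intCast]

theorem k1_fin (c : ℤ → ℂ) (hc : ∀ n, c (-n) = star (c n)) (R L : ℕ) (hRL : R ≤ L) :
    ∑ x ∈ Finset.Icc (1 : ℤ) R ×ˢ Finset.Icc (1 : ℤ) R,
      2 * ((x.2 : ℝ) * x.1) * ‖c (x.2 + x.1)‖ ^ 2 ≤
      (∑ p ∈ Fintype.piFinset
        (fun _ : Fin (1 + 1) => Finset.Icc (-(L : ℤ)) L), F c p).re := by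
  classical
  have hRL' : (R : ℤ) ≤ L := by exact_mod_cast hRL
  rw [Complex.re_sum]
  have hnn : ∀ p : Fin (1 + 1) → ℤ, 0 ≤ (F c p).re := by
    intro p
    rw [F_two c hc, Complex.ofReal_re]
    refine mul_nonneg ?_ (by positivity)
    exact_mod_cast sub_nonneg.2 (le_abs_self (p 0 * p 1))
  have himg : ∑ x ∈ Finset.Icc (1 : ℤ) R ×ˢ Finset.Icc (1 : ℤ) R,
      2 * ((x.2 : ℝ) * x.1) * ‖c (x.2 + x.1)‖ ^ 2 =
      ∑ p ∈ (Finset.Icc (1 : ℤ) R ×ˢ Finset.Icc (1 : ℤ) R).image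
        (fun x : ℤ × ℤ => (![-x.1, x.2] : Fin (1 + 1) → ℤ)), (F c p).re := by
    rw [Finset.sum_image]
    · refine Finset.sum_congr rfl fun x hx => ?_
      rw [Finset.mem_product, Finset.mem_Icc, Finset.mem_Icc] at hx
      rw [F_two c hc, Complex.ofReal_re]
      have e0 : (![-x.1, x.2] : Fin (1 + 1) → ℤ) 0 = -x.1 := rfl
      have e1 : (![-x.1, x.2] : Fin (1 + 1) → ℤ) 1 = x.2 := rfl
      rw [e0, e1]
      have hpos : 0 ≤ x.1 * x.2 := mul_nonneg (by omega) (by omega)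
      have habs : |-x.1 * x.2| - -x.1 * x.2 = 2 * (x.1 * x.2) := by
        rw [neg_mul, abs_neg, abs_of_nonneg hpos]; ring
      rw [habs, sub_neg_eq_add]
      push_cast
      ring
    · intro x _ y _ hxy
      have h0 := congrFun hxy 0
      have h1 := congrFun hxy 1
      have h0' : -x.1 = -y.1 := h0
      have h1' : x.2 = y.2 := h1
      exact Prod.ext (by omega) h1'
  rw [himg]
  refine Finset.sum_le_sum_of_subset_of_nonneg ?_ fun p _ _ => hnn p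
  intro p hp
  obtain ⟨x, hx, rfl⟩ := Finset.mem_image.1 hp
  rw [Finset.mem_product, Finset.mem_Icc, Finset.mem_Icc] at hx
  rw [Fintype.mem_piFinset]
  intro i
  rw [Finset.mem_Icc]
  fin_cases i
  · show -(L : ℤ) ≤ -x.1 ∧ -x.1 ≤ L
    omega
  · show -(L : ℤ) ≤ x.2 ∧ x.2 ≤ L
    omega

theorem sum_mul_sub (q : ℤ) (n : ℕ) :
    6 * ∑ m ∈ Finset.range n, ((m : ℝ) + 1) * (q - ((m : ℝ) + 1)) =
      n * (n + 1) * (3 * q - (2 * n + 1)) := by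
  induction n with
  | zero => simp
  | succ n ih =>
    rw [Finset.sum_range_succ, mul_add, ih]
    push_cast
    ring

theorem k1_lim (h4 : S_SUMM) (c : ℤ → ℂ) (hd : Dec c) (hc : ∀ n, c (-n) = star (c n)) (R : ℕ) :
    ∑ x ∈ Finset.Icc (1 : ℤ) R ×ˢ Finset.Icc (1 : ℤ) R,
      2 * ((x.2 : ℝ) * x.1) * ‖c (x.2 + x.1)‖ ^ 2 ≤
      (∑' j : Idx 1, ((Nj j.1 : ℤ) : ℂ) * ∏ i : Fin (1 + 1), c (j.1 i)).re := by
  have hev : Even (1 + 1) := ⟨1, rfl⟩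
  have ht := (Complex.continuous_re.tendsto _).comp (trunc_tendsto hev c (h4 1 c hev hd))
  refine ge_of_tendsto ht ?_
  filter_upwards [eventually_ge_atTop R] with L hRL
  exact k1_fin c hc R L hRL

/-- the inequality for `k = 1`, single coefficients -/
theorem k1_main (h4 : S_SUMM) (c : ℤ → ℂ) (hd : Dec c) (hc : ∀ n, c (-n) = star (c n)) (Q : ℕ) :
    ∑ q ∈ Finset.Ico (2 : ℕ) Q, (q : ℝ) ^ 3 * ‖c (q : ℤ)‖ ^ 2 ≤
      4 * (∑' j : Idx 1, ((Nj j.1 : ℤ) : ℂ) * ∏ i : Fin (1 + 1), c (j.1 i)).re := by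
  classical
  have h := k1_lim h4 c hd hc Q
  have h1 : ∑ q ∈ Finset.Ico (2 : ℕ) Q, ∑ m ∈ Finset.range (q - 1),
      2 * (((q : ℝ) - (m + 1)) * (m + 1)) * ‖c (q : ℤ)‖ ^ 2 ≤
      ∑ x ∈ Finset.Icc (1 : ℤ) Q ×ˢ Finset.Icc (1 : ℤ) Q,
      2 * ((x.2 : ℝ) * x.1) * ‖c (x.2 + x.1)‖ ^ 2 := by
    rw [Finset.sum_sigma' (Finset.Ico (2 : ℕ) Q) (fun q => Finset.range (q - 1))
      (fun q m => 2 * (((q : ℝ) - (m + 1)) * (m + 1)) * ‖c (q : ℤ)‖ ^ 2)]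
    have hi : ∑ y ∈ (Finset.Ico (2 : ℕ) Q).sigma (fun q => Finset.range (q - 1)),
        2 * (((y.1 : ℝ) - (y.2 + 1)) * (y.2 + 1)) * ‖c (y.1 : ℤ)‖ ^ 2 =
        ∑ x ∈ ((Finset.Ico (2 : ℕ) Q).sigma (fun q => Finset.range (q - 1))).image
          (fun y : (_ : ℕ) × ℕ => (((y.2 : ℤ) + 1, (y.1 : ℤ) - (y.2 + 1)) : ℤ × ℤ)),
          2 * ((x.2 : ℝ) * x.1) * ‖c (x.2 + x.1)‖ ^ 2 := by
      rw [Finset.sum_image]
      · refine Finset.sum_congr rfl fun y _ => ?_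
        simp only
        rw [show (y.1 : ℤ) - (y.2 + 1) + ((y.2 : ℤ) + 1) = y.1 by ring]
        push_cast
        ring
      · rintro ⟨a, b⟩ _ ⟨a', b'⟩ _ hab
        simp only [Prod.mk.injEq] at hab
        obtain ⟨e1, e2⟩ := hab
        have hb : b = b' := by omega
        have ha : a = a' := by omega
        subst hb ha
        rfl
    rw [hi]
    refine Finset.sum_le_sum_of_subset_of_nonneg ?_ ?_
    · intro x hx
      obtain ⟨y, hy, rfl⟩ := Finset.mem_image.1 hx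
      rw [Finset.mem_sigma, Finset.mem_Ico, Finset.mem_range] at hy
      rw [Finset.mem_product, Finset.mem_Icc, Finset.mem_Icc]
      simp only
      omega
    · intro x hx _
      rw [Finset.mem_product, Finset.mem_Icc, Finset.mem_Icc] at hx
      have e1 : (1 : ℝ) ≤ x.1 := by exact_mod_cast hx.1.1
      have e2 : (1 : ℝ) ≤ x.2 := by exact_mod_cast hx.2.1
      positivity
  have h2 : ∑ q ∈ Finset.Ico (2 : ℕ) Q, (q : ℝ) ^ 3 * ‖c (q : ℤ)‖ ^ 2 ≤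
      4 * ∑ q ∈ Finset.Ico (2 : ℕ) Q, ∑ m ∈ Finset.range (q - 1),
      2 * (((q : ℝ) - (m + 1)) * (m + 1)) * ‖c (q : ℤ)‖ ^ 2 := by
    rw [Finset.mul_sum]
    refine Finset.sum_le_sum fun q hq => ?_
    rw [Finset.mem_Ico] at hq
    rw [← Finset.sum_mul, ← mul_assoc]
    refine mul_le_mul_of_nonneg_right ?_ (by positivity)
    have hs := sum_mul_sub (q : ℤ) (q - 1)
    have hq1 : ((q - 1 : ℕ) : ℝ) = (q : ℝ) - 1 := by
      rw [Nat.cast_sub (by omega)]; simp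
    rw [hq1] at hs
    push_cast at hs
    have hs' : ∑ m ∈ Finset.range (q - 1), 2 * (((q : ℝ) - ((m : ℝ) + 1)) * ((m : ℝ) + 1)) =
        2 * ∑ m ∈ Finset.range (q - 1), ((m : ℝ) + 1) * ((q : ℝ) - ((m : ℝ) + 1)) := by
      rw [Finset.mul_sum]
      exact Finset.sum_congr rfl fun m _ => by ring
    rw [hs']
    have hq2 : (2 : ℝ) ≤ q := by exact_mod_cast hq.1
    nlinarith [sq_nonneg ((q : ℝ) - 2), mul_nonneg (mul_nonneg (by linarith : (0 : ℝ) ≤ q)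
      (by linarith : (0 : ℝ) ≤ (q : ℝ) - 2)) (by linarith : (0 : ℝ) ≤ (q : ℝ) + 2)]
  calc _ ≤ _ := h2
    _ ≤ 4 * _ := mul_le_mul_of_nonneg_left (h1.trans h) (by norm_num)

end

end Run7.h747.ZB
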