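import Pool.Agent.Run7.h923.ZetaPath
import Pool.Agent.Run7.h747.ZB.Defs

set_option autoImplicit false

/-!
# MP_2eaf66_an: from finite sections to the zeta-invariants
-/

namespace Run7.h747.ZB

open Matrix Run7.h923.ZT Filter Topology

noncomputable section

/-- the index of the series -/
abbrev Idx (m : ℕ) : Type := {j : Fin (m + 1) → ℤ // ∑ i, j i = 0}

/-- the integer coefficient of the series -/
def Nj {m : ℕ} (j : Fin (m + 1) → ℤ) : ℤ :=
  ∑ᶠ n : ℤ, (|∏ i : Fin (m + 1), (n + ∑ l ∈ Finset.Iio i, j l)|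
        - ∏ i : Fin (m + 1), (n + ∑ l ∈ Finset.Iio i, j l))

theorem trunc_eq {m : ℕ} (s : Finset ℤ) (c : ℤ → ℂ) :
    ∑ p ∈ Fintype.piFinset (fun _ : Fin (m + 1) => s), F c p =
      ((Sm s c) ^ (m + 1)).trace -
        ((Matrix.diagonal (fun x : s => sg x) * Sm s c) ^ (m + 1)).trace := by
  rw [trace_pow_paths, trace_pow_paths, sum_piFinset, ← Finset.sum_sub_distrib]
  refine Finset.sum_congr rfl fun q _ => ?_
  have h2 : ∏ i, (Matrix.diagonal (fun x : s => sg x) * Sm s c) (q i) (q (i + 1)) =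
      ((∏ i, (q i : ℤ) : ℤ) : ℂ) * ∏ i, c ((q (i + 1) : ℤ) - q i) := by
    simp only [Matrix.diagonal_mul]
    rw [Finset.prod_mul_distrib, prod_Sm, ← mul_assoc]
    congr 1
    rw [Finset.abs_prod]
    push_cast
    rw [← Finset.prod_mul_distrib]
    refine Finset.prod_congr rfl fun i _ => ?_
    exact sg_mul_abs (q i)
  rw [prod_Sm, h2]
  unfold F
  push_cast
  ring

theorem trunc_tendsto {m : ℕ} (hm : Even (m + 1)) (c : ℤ → ℂ)
    (hs : Summable fun j : Idx m => ((Nj j.1 : ℤ) : ℂ) * ∏ i : Fin (m + 1), c (j.1 i)) :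
    Tendsto (fun M : ℕ => ∑ p ∈ Fintype.piFinset
      (fun _ : Fin (m + 1) => Finset.Icc (-(M : ℤ)) M), F c p) atTop
      (𝓝 (∑' j : Idx m, ((Nj j.1 : ℤ) : ℂ) * ∏ i : Fin (m + 1), c (j.1 i))) := by
  classical
  set D : Idx m → ℤ → ℤ := fun j n =>
    |∏ i : Fin (m + 1), (n + ∑ l ∈ Finset.Iio i, j.1 l)|
        - ∏ i : Fin (m + 1), (n + ∑ l ∈ Finset.Iio i, j.1 l) with hD
  have hD0 : ∀ j n, 0 ≤ D j n := fun j n => sub_nonneg.2 (le_abs_self _)
  set R : Idx m → Finset ℤ := fun j =>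
    Finset.Icc (-(∑ i : Fin (m + 1), |∑ l ∈ Finset.Iio i, j.1 l|))
      (∑ i : Fin (m + 1), |∑ l ∈ Finset.Iio i, j.1 l|) with hR
  have hDR : ∀ j n, n ∉ R j → D j n = 0 := by
    intro j n hn
    refine term_zero hm _ n ?_
    by_contra hlt
    push Not at hlt
    exact hn (Finset.mem_Icc.2 (abs_le.1 hlt))
  have hfs : ∀ j : Idx m, Nj j.1 = ∑ n ∈ R j, D j n := by
    intro j
    refine finsum_eq_sum_of_support_subset _ fun n hn => ?_
    by_contra h
    exact hn (hDR j n h)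
  have hG : Summable fun x : Idx m × ℤ =>
      ((D x.1 x.2 : ℤ) : ℂ) * ∏ i : Fin (m + 1), c (x.1.1 i) := by
    rw [← summable_norm_iff]
    rw [summable_prod_of_nonneg (fun x => norm_nonneg _)]
    constructor
    · intro j
      refine summable_of_ne_finset_zero (s := R j) fun n hn => ?_
      simp only
      rw [hDR j n hn]; simp
    · refine (summable_norm_iff.2 hs).congr fun j => ?_
      rw [tsum_eq_sum (s := R j) (fun n hn => by simp only; rw [hDR j n hn]; simp), hfs j]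
      simp only [norm_mul]
      rw [← Finset.sum_mul]
      congr 1
      push_cast
      rw [← Int.cast_sum, Complex.norm_intCast, ← Int.cast_abs,
        abs_of_nonneg (Finset.sum_nonneg fun n _ => hD0 j n)]
      push_cast
      refine Finset.sum_congr rfl fun n _ => ?_
      rw [Complex.norm_intCast, ← Int.cast_abs, abs_of_nonneg (hD0 j n)]
  have hts : ∑' j : Idx m, ((Nj j.1 : ℤ) : ℂ) * ∏ i : Fin (m + 1), c (j.1 i) =
        ∑' p : Fin (m + 1) → ℤ, F c p := by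
    rw [← (paths m).tsum_eq (F c)]
    have h1 : (fun x => F c (paths m x)) = fun x : {j : Fin (m + 1) → ℤ // ∑ i, j i = 0} × ℤ =>
      ((D x.1 x.2 : ℤ) : ℂ) * ∏ i : Fin (m + 1), c (x.1.1 i) := funext fun x => F_paths c x
    rw [h1, hG.tsum_prod]
    refine tsum_congr fun j => ?_
    rw [tsum_eq_sum (s := R j) (fun n hn => by simp only; rw [hDR j n hn]; simp), hfs j]
    simp only
    rw [← Finset.sum_mul]
    push_cast
    rfl
  have hFs : Summable (F (m := m) c) := by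
    rw [← (paths m).summable_iff]
    refine hG.congr fun x => ?_
    exact (F_paths c x).symm
  rw [hts]
  have htend : Filter.Tendsto (fun M : ℕ => Fintype.piFinset
      (fun _ : Fin (m + 1) => Finset.Icc (-(M : ℤ)) M)) Filter.atTop Filter.atTop := by
    refine Filter.tendsto_atTop_finset_of_monotone ?_ ?_
    · intro M N h
      refine Fintype.piFinset_subset _ _ fun _ => Finset.Icc_subset_Icc ?_ ?_
      · have : (M : ℤ) ≤ N := by exact_mod_cast h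
        omega
      · exact_mod_cast h
    · intro p
      refine ⟨(∑ i, |p i|).toNat, ?_⟩
      rw [Fintype.mem_piFinset]
      intro i
      have h1 : |p i| ≤ ∑ i, |p i| :=
        Finset.single_le_sum (fun i _ => abs_nonneg (p i)) (Finset.mem_univ i)
      rw [Finset.mem_Icc, ← abs_le, Int.toNat_of_nonneg (Finset.sum_nonneg fun i _ => abs_nonneg _)]
      exact h1
  exact hFs.hasSum.comp htend

/-- the partial sums of `U` -/
def UL (L : ℕ) (c : ℤ → ℂ) (n m : ℤ) : ℂ :=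
  ∑ l ∈ Finset.Icc (-(L : ℤ)) L, ((|l| : ℤ) : ℂ) * (c (n - l) * c (m + l))

theorem Sm_sq_apply (L : ℕ) (c : ℤ → ℂ) (x y : Finset.Icc (-(L : ℤ)) L) :
    (Sm (Finset.Icc (-(L : ℤ)) L) c * Sm (Finset.Icc (-(L : ℤ)) L) c) x y =
      ((Real.sqrt |((x : ℤ) : ℝ)| : ℝ) : ℂ) * ((Real.sqrt |((y : ℤ) : ℝ)| : ℝ) : ℂ) *
        UL L c y (-x) := by
  rw [Matrix.mul_apply]
  unfold Sm UL
  rw [Finset.mul_sum, ← Finset.sum_coe_sort (Finset.Icc (-(L : ℤ)) L)
    (fun l => ((Real.sqrt |((x : ℤ) : ℝ)| : ℝ) : ℂ) * ((Real.sqrt |((y : ℤ) : ℝ)| : ℝ) : ℂ) *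
      (((|l| : ℤ) : ℂ) * (c ((y : ℤ) - l) * c (-(x : ℤ) + l))))]
  refine Finset.sum_congr rfl fun l _ => ?_
  rw [← sqrt_mul_self', show (l : ℤ) - (x : ℤ) = -(x : ℤ) + l by ring]
  ring

/-- the entries of `D` -/
theorem D_norm (L : ℕ) (c : ℤ → ℂ) (n m : ℤ) (hn : 1 ≤ n) (hnL : n ≤ L) (hm : 1 ≤ m)
    (hmL : m ≤ L) :
    ‖(Sm (Finset.Icc (-(L : ℤ)) L) c * Sm (Finset.Icc (-(L : ℤ)) L) c -
      diagonal (fun x : Finset.Icc (-(L : ℤ)) L => sg x) *
        (Sm (Finset.Icc (-(L : ℤ)) L) c * Sm (Finset.Icc (-(L : ℤ)) L) c) *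
        diagonal (fun x : Finset.Icc (-(L : ℤ)) L => sg x))
      ⟨-m, Finset.mem_Icc.2 ⟨by omega, by omega⟩⟩ ⟨n, Finset.mem_Icc.2 ⟨by omega, by omega⟩⟩‖ ^ 2 =
      4 * ((n : ℝ) * m) * ‖UL L c n m‖ ^ 2 := by
  rw [Matrix.sub_apply, Matrix.mul_diagonal, Matrix.diagonal_mul, Sm_sq_apply]
  have h1 : sg (-m) = -1 := by unfold sg; rw [if_pos (by omega)]
  have h2 : sg n = 1 := by unfold sg; rw [if_neg (by omega)]
  simp only [h1, h2, neg_neg]
  have h3 : |((-m : ℤ) : ℝ)| = (m : ℝ) := by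
    push_cast
    rw [abs_neg, abs_of_nonneg]
    have : (1 : ℝ) ≤ m := by exact_mod_cast hm
    linarith
  have h4 : |((n : ℤ) : ℝ)| = (n : ℝ) := by
    rw [abs_of_nonneg]
    have : (1 : ℝ) ≤ n := by exact_mod_cast hn
    linarith
  rw [h3, h4]
  have h5 : ∀ z : ℂ, z - -1 * z * 1 = 2 * z := fun z => by ring
  rw [h5, norm_mul, norm_mul, norm_mul, mul_pow, mul_pow, mul_pow, Complex.norm_real,
    Complex.norm_real, Real.norm_of_nonneg (Real.sqrt_nonneg _),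
    Real.norm_of_nonneg (Real.sqrt_nonneg _), Real.sq_sqrt, Real.sq_sqrt]
  · norm_num
    ring
  · have : (1 : ℝ) ≤ n := by exact_mod_cast hn
    linarith
  · have : (1 : ℝ) ≤ m := by exact_mod_cast hm
    linarith

theorem sum_le_univ {L : ℕ} {R : ℕ} (hRL : R ≤ L) (k : ℕ)
    (g : Finset.Icc (-(L : ℤ)) L → Finset.Icc (-(L : ℤ)) L → ℝ) (hg : ∀ x y, 0 ≤ g x y)
    (G : ℤ → ℤ → ℝ) (hG : ∀ n m : ℤ, ∀ hn : 1 ≤ n, ∀ hnL : n ≤ L, ∀ hm : 1 ≤ m, ∀ hmL : m ≤ L,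
      g ⟨-m, Finset.mem_Icc.2 ⟨by omega, by omega⟩⟩ ⟨n, Finset.mem_Icc.2 ⟨by omega, by omega⟩⟩ =
        G n m) :
    ∑ m ∈ Finset.Icc (1 : ℤ) R, (∑ n ∈ Finset.Icc (1 : ℤ) R, G n m) ^ ((k : ℝ) / 2) ≤
      ∑ x, (∑ y, g x y) ^ ((k : ℝ) / 2) := by
  classical
  have hRL' : (R : ℤ) ≤ L := by exact_mod_cast hRL
  have hinner : ∀ m : ℤ, ∀ hm : 1 ≤ m, ∀ hmR : m ≤ R,
      ∑ n ∈ Finset.Icc (1 : ℤ) R, G n m ≤
        ∑ y, g ⟨-m, Finset.mem_Icc.2 ⟨by omega, by omega⟩⟩ y := by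
    intro m hm hmR
    have h1 : ∑ n ∈ Finset.Icc (1 : ℤ) R, G n m = ∑ n ∈ (Finset.Icc (1 : ℤ) R).attach,
        g ⟨-m, Finset.mem_Icc.2 ⟨by omega, by omega⟩⟩
          ⟨n.1, Finset.mem_Icc.2 ⟨by have := Finset.mem_Icc.1 n.2; omega,
            by have := Finset.mem_Icc.1 n.2; omega⟩⟩ := by
      rw [← Finset.sum_attach]
      refine Finset.sum_congr rfl fun n _ => ?_
      have := Finset.mem_Icc.1 n.2
      exact (hG n.1 m (by omega) (by omega) (by omega) (by omega)).symm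
    rw [h1]
    rw [← Finset.sum_image (s := (Finset.Icc (1 : ℤ) R).attach)
      (g := fun n => (⟨n.1, Finset.mem_Icc.2 ⟨by have := Finset.mem_Icc.1 n.2; omega,
            by have := Finset.mem_Icc.1 n.2; omega⟩⟩ : Finset.Icc (-(L : ℤ)) L))
      (f := fun y => g ⟨-m, Finset.mem_Icc.2 ⟨by omega, by omega⟩⟩ y)]
    · exact Finset.sum_le_sum_of_subset_of_nonneg (Finset.subset_univ _) fun y _ _ => hg _ y
    · intro a _ b _ hab
      have : a.1 = b.1 := by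
        have := congrArg Subtype.val hab
        exact this
      exact Subtype.ext this
  have hGnn : ∀ m : ℤ, 1 ≤ m → m ≤ R → 0 ≤ ∑ n ∈ Finset.Icc (1 : ℤ) R, G n m := by
    intro m hm hmR
    refine Finset.sum_nonneg fun n hn => ?_
    have := Finset.mem_Icc.1 hn
    rw [← hG n m (by omega) (by omega) (by omega) (by omega)]
    exact hg _ _
  have h2 : ∑ m ∈ Finset.Icc (1 : ℤ) R, (∑ n ∈ Finset.Icc (1 : ℤ) R, G n m) ^ ((k : ℝ) / 2) ≤
      ∑ m ∈ (Finset.Icc (1 : ℤ) R).attach,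
        (∑ y, g ⟨-m.1, Finset.mem_Icc.2 ⟨by have := Finset.mem_Icc.1 m.2; omega,
            by have := Finset.mem_Icc.1 m.2; omega⟩⟩ y) ^ ((k : ℝ) / 2) := by
    rw [← Finset.sum_attach]
    refine Finset.sum_le_sum fun m _ => ?_
    have := Finset.mem_Icc.1 m.2
    exact Real.rpow_le_rpow (hGnn m.1 (by omega) (by omega)) (hinner m.1 (by omega) (by omega))
      (by positivity)
  refine h2.trans ?_
  rw [← Finset.sum_image (s := (Finset.Icc (1 : ℤ) R).attach)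
      (g := fun m => (⟨-m.1, Finset.mem_Icc.2 ⟨by have := Finset.mem_Icc.1 m.2; omega,
            by have := Finset.mem_Icc.1 m.2; omega⟩⟩ : Finset.Icc (-(L : ℤ)) L))
      (f := fun x => (∑ y, g x y) ^ ((k : ℝ) / 2))]
  · exact Finset.sum_le_sum_of_subset_of_nonneg (Finset.subset_univ _) fun y _ _ =>
      Real.rpow_nonneg (Finset.sum_nonneg fun z _ => hg _ z) _
  · intro a _ b _ hab
    have h := congrArg Subtype.val hab
    have : a.1 = b.1 := by
      have h' : -a.1 = -b.1 := h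
      omega
    exact Subtype.ext this

/-- the inequality for the finite sections -/
theorem fin_ineq (h1 : S_MAT1) (h2 : S_MAT2) (c : ℤ → ℂ) (hc : ∀ n, c (-n) = star (c n)) (k : ℕ)
    (hk : 2 ≤ k) (m : ℕ) (hm : m + 1 = 2 * k) (R L : ℕ) (hRL : R ≤ L) :
    ∑ m ∈ Finset.Icc (1 : ℤ) R, (∑ n ∈ Finset.Icc (1 : ℤ) R,
      4 * ((n : ℝ) * m) * ‖UL L c n m‖ ^ 2) ^ ((k : ℝ) / 2) ≤
      4 ^ (k - 1) * (∑ p ∈ Fintype.piFinset
        (fun _ : Fin (m + 1) => Finset.Icc (-(L : ℤ)) L), F c p).re := by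
  set S := Sm (Finset.Icc (-(L : ℤ)) L) c with hS
  have hSh : Sᴴ = S := Sm_herm _ c hc
  have hσ : ∀ x : Finset.Icc (-(L : ℤ)) L, sg x = 1 ∨ sg x = -1 := by
    intro x
    unfold sg
    split
    · exact Or.inr rfl
    · exact Or.inl rfl
  have e1 := h1 _ (fun x : Finset.Icc (-(L : ℤ)) L => sg x) S k hk hσ hSh
  have e2 := h2 _ (fun x : Finset.Icc (-(L : ℤ)) L => sg x) S k hk hσ hSh
  have e3 := sum_le_univ hRL k (fun x y => ‖(S * S -
      diagonal (fun x : Finset.Icc (-(L : ℤ)) L => sg x) * (S * S) *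
        diagonal (fun x : Finset.Icc (-(L : ℤ)) L => sg x)) x y‖ ^ 2) (fun x y => by positivity)
      (fun n m => 4 * ((n : ℝ) * m) * ‖UL L c n m‖ ^ 2)
      (fun n m hn hnL hm hmL => D_norm L c n m hn hnL hm hmL)
  have e4 := trunc_eq (m := m) (Finset.Icc (-(L : ℤ)) L) c
  rw [e4, hm]
  refine e3.trans (e2.trans ?_)
  have h4 : (4 : ℝ) ^ (k - 1) = 2 ^ (k - 1) * 2 ^ (k - 1) := by
    rw [← mul_pow]; norm_num
  have h5 : (0 : ℝ) ≤ 2 ^ (k - 1) := by positivity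
  rw [h4]
  exact (mul_le_mul_of_nonneg_left e1 h5).trans (le_of_eq (mul_assoc _ _ _).symm)

/-- the limit -/
theorem lim_ineq (h1 : S_MAT1) (h2 : S_MAT2) (h3 : S_SD) (h4 : S_SUMM) (c : ℤ → ℂ)
    (hd : Dec c) (hc : ∀ n, c (-n) = star (c n)) (k : ℕ)
    (hk : 2 ≤ k) (m : ℕ) (hm : m + 1 = 2 * k) (R : ℕ) :
    ∑ m ∈ Finset.Icc (1 : ℤ) R, (∑ n ∈ Finset.Icc (1 : ℤ) R,
      4 * ((n : ℝ) * m) * ‖U c n m‖ ^ 2) ^ ((k : ℝ) / 2) ≤
      4 ^ (k - 1) * (∑' j : Idx m, ((Nj j.1 : ℤ) : ℂ) * ∏ i : Fin (m + 1), c (j.1 i)).re := by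
  have hev : Even (m + 1) := hm ▸ even_two_mul k
  have ht := trunc_tendsto hev c (h4 m c hev hd)
  have hUL : ∀ n m : ℤ, Tendsto (fun L : ℕ => UL L c n m) atTop (𝓝 (U c n m)) := by
    intro n m
    have hs := ((h3 c hd).1 n m).hasSum
    have htend : Filter.Tendsto (fun L : ℕ => Finset.Icc (-(L : ℤ)) L) Filter.atTop
        Filter.atTop := by
      refine Filter.tendsto_atTop_finset_of_monotone ?_ ?_
      · intro M N h
        have : (M : ℤ) ≤ N := by exact_mod_cast h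
        exact Finset.Icc_subset_Icc (by omega) this
      · intro p
        refine ⟨p.natAbs, ?_⟩
        rw [Finset.mem_Icc]
        omega
    exact hs.comp htend
  have hL : Tendsto (fun L : ℕ => ∑ m ∈ Finset.Icc (1 : ℤ) R, (∑ n ∈ Finset.Icc (1 : ℤ) R,
      4 * ((n : ℝ) * m) * ‖UL L c n m‖ ^ 2) ^ ((k : ℝ) / 2)) atTop
      (𝓝 (∑ m ∈ Finset.Icc (1 : ℤ) R, (∑ n ∈ Finset.Icc (1 : ℤ) R,
      4 * ((n : ℝ) * m) * ‖U c n m‖ ^ 2) ^ ((k : ℝ) / 2))) := by
    refine tendsto_finsetSum _ fun m _ => ?_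
    refine Tendsto.rpow_const ?_ (Or.inr (by positivity))
    refine tendsto_finsetSum _ fun n _ => ?_
    exact ((hUL n m).norm.pow 2).const_mul _
  have hRt : Tendsto (fun L : ℕ => 4 ^ (k - 1) * (∑ p ∈ Fintype.piFinset
        (fun _ : Fin (m + 1) => Finset.Icc (-(L : ℤ)) L), F c p).re) atTop
      (𝓝 (4 ^ (k - 1) * (∑' j : Idx m, ((Nj j.1 : ℤ) : ℂ) * ∏ i : Fin (m + 1), c (j.1 i)).re)) :=
    ((Complex.continuous_re.tendsto _).comp ht).const_mul _
  refine le_of_tendsto_of_tendsto hL hRt ?_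
  filter_upwards [eventually_ge_atTop R] with L hRL
  exact fin_ineq h1 h2 c hc k hk m hm R L hRL

end

end Run7.h747.ZB
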