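import Pool.Agent.Run7.h747.ZB.KOne

set_option autoImplicit false

/-!
# MP_2eaf66_an: assembly
-/

namespace Run7.h747.ZB

open Matrix Run7.h923.ZT Filter Topology

noncomputable section

theorem sum_Ico_int (a b : ℕ) (f : ℤ → ℝ) :
    ∑ q ∈ Finset.Ico (a : ℤ) b, f q = ∑ q ∈ Finset.Ico a b, f (q : ℤ) := by
  refine Finset.sum_nbij' (fun q => q.toNat) (fun q => (q : ℤ)) ?_ ?_ ?_ ?_ ?_
  · intro q hq
    rw [Finset.mem_Ico] at hq ⊢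
    omega
  · intro q hq
    rw [Finset.mem_Ico] at hq ⊢
    omega
  · intro q hq
    rw [Finset.mem_Ico] at hq
    show ((q.toNat : ℕ) : ℤ) = q
    omega
  · intro q _
    show ((q : ℤ)).toNat = q
    omega
  · intro q hq
    rw [Finset.mem_Ico] at hq
    have : ((q.toNat : ℕ) : ℤ) = q := by omega
    rw [this]

theorem sum_blocks (g : ℕ → ℝ) (J : ℕ) :
    ∑ j ∈ Finset.range J, ∑ q ∈ Finset.Ico (2 * 2 ^ j) (4 * 2 ^ j), g q =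
      ∑ q ∈ Finset.Ico (2 : ℕ) (2 * 2 ^ J), g q := by
  induction J with
  | zero => simp
  | succ J ih =>
    rw [Finset.sum_range_succ, ih, show 2 * 2 ^ (J + 1) = 4 * 2 ^ J by ring]
    refine Finset.sum_Ico_consecutive g ?_ ?_
    · have := Nat.one_le_two_pow (n := J); omega
    · omega

/-- both forms of the inequality, partial sums -/
theorem main_fin (h1 : S_MAT1) (h2 : S_MAT2) (h3 : S_SD) (h4 : S_SUMM) (h5 : S_BLK) (k : ℕ)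
    (hk : 1 ≤ k) : ∃ C : ℝ, 0 < C ∧ ∀ m : ℕ, m + 1 = 2 * k → ∀ c : ℤ → ℂ, Dec c →
      (∀ n, c (-n) = star (c n)) → ∀ J : ℕ,
      (∑ j ∈ Finset.range J, ((2 : ℝ) ^ j) ^ (2 * k + 1) *
        (∑ q ∈ Finset.Ico (2 * (2 : ℤ) ^ j) (4 * 2 ^ j), ‖c q‖ ^ 2) ^ k ≤
          C * (∑' j : Idx m, ((Nj j.1 : ℤ) : ℂ) * ∏ i : Fin (m + 1), c (j.1 i)).re) ∧
      ∑ q ∈ Finset.Ico (2 : ℕ) (2 * 2 ^ J), (q : ℝ) ^ (2 * k + 1) * ‖c (q : ℤ)‖ ^ (2 * k) ≤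
          C * (∑' j : Idx m, ((Nj j.1 : ℤ) : ℂ) * ∏ i : Fin (m + 1), c (j.1 i)).re := by
  rcases Nat.lt_or_ge 1 k with hk2 | hk1
  · obtain ⟨C, hC, h⟩ := h5 k hk2
    refine ⟨C * 4 ^ (k - 1), by positivity, fun m hm c hd hc J => ?_⟩
    have := h c hd (4 ^ (k - 1) *
      (∑' j : Idx m, ((Nj j.1 : ℤ) : ℂ) * ∏ i : Fin (m + 1), c (j.1 i)).re)
      (fun R => lim_ineq h1 h2 h3 h4 c hd hc k hk2 m hm R) J
    rw [← mul_assoc] at this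
    exact this
  · have hk' : k = 1 := by omega
    subst hk'
    refine ⟨4, by norm_num, fun m hm c hd hc J => ?_⟩
    have hm1 : m = 1 := by omega
    subst hm1
    have h := k1_main h4 c hd hc (2 * 2 ^ J)
    refine ⟨le_trans ?_ h, h⟩
    rw [← sum_blocks]
    refine Finset.sum_le_sum fun j _ => ?_
    rw [pow_one, show (2 * (2 : ℤ) ^ j) = ((2 * 2 ^ j : ℕ) : ℤ) by push_cast; ring,
      show (4 * (2 : ℤ) ^ j) = ((4 * 2 ^ j : ℕ) : ℤ) by push_cast; ring, sum_Ico_int,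
      Finset.mul_sum]
    refine Finset.sum_le_sum fun q hq => ?_
    rw [Finset.mem_Ico] at hq
    refine mul_le_mul_of_nonneg_right ?_ (by positivity)
    refine pow_le_pow_left₀ (by positivity) ?_ _
    have h2j : (2 : ℝ) ^ j ≤ ((2 * 2 ^ j : ℕ) : ℝ) := by
      push_cast
      have : (0 : ℝ) ≤ 2 ^ j := by positivity
      linarith
    exact h2j.trans (by exact_mod_cast hq.1)

/-- the final inequality, for sequences -/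
theorem main_seq (h1 : S_MAT1) (h2 : S_MAT2) (h3 : S_SD) (h4 : S_SUMM) (h5 : S_BLK) (k : ℕ)
    (hk : 1 ≤ k) : ∃ C : ℝ, 0 < C ∧ ∀ m : ℕ, m + 1 = 2 * k → ∀ c : ℤ → ℂ, Dec c →
      (∀ n, c (-n) = star (c n)) →
      (Summable fun j : Idx m => ((Nj j.1 : ℤ) : ℂ) * ∏ i : Fin (m + 1), c (j.1 i)) ∧
      (∑' j : Idx m, ((Nj j.1 : ℤ) : ℂ) * ∏ i : Fin (m + 1), c (j.1 i)).im = 0 ∧
      (Summable fun n : ℕ => ((n : ℝ) + 2) ^ (2 * k + 1) * ‖c ((n : ℤ) + 2)‖ ^ (2 * k)) ∧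
      C * ∑' n : ℕ, ((n : ℝ) + 2) ^ (2 * k + 1) * ‖c ((n : ℤ) + 2)‖ ^ (2 * k) ≤
        (∑' j : Idx m, ((Nj j.1 : ℤ) : ℂ) * ∏ i : Fin (m + 1), c (j.1 i)).re ∧
      (Summable fun j : ℕ => ((2 : ℝ) ^ j) ^ (2 * k + 1) *
        (∑ q ∈ Finset.Ico (2 * (2 : ℤ) ^ j) (4 * 2 ^ j), ‖c q‖ ^ 2) ^ k) ∧
      C * ∑' j : ℕ, ((2 : ℝ) ^ j) ^ (2 * k + 1) *
        (∑ q ∈ Finset.Ico (2 * (2 : ℤ) ^ j) (4 * 2 ^ j), ‖c q‖ ^ 2) ^ k ≤
        (∑' j : Idx m, ((Nj j.1 : ℤ) : ℂ) * ∏ i : Fin (m + 1), c (j.1 i)).re := by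
  obtain ⟨C, hC, h⟩ := main_fin h1 h2 h3 h4 h5 k hk
  refine ⟨C⁻¹, by positivity, fun m hm c hd hc => ?_⟩
  have hev : Even (m + 1) := hm ▸ even_two_mul k
  have hJ := h m hm c hd hc
  have hcore := core m hev c hc
  have him : (∑' j : Idx m, ((Nj j.1 : ℤ) : ℂ) * ∏ i : Fin (m + 1), c (j.1 i)).im = 0 :=
    (Complex.le_def.1 hcore).2.symm
  set Z := (∑' j : Idx m, ((Nj j.1 : ℤ) : ℂ) * ∏ i : Fin (m + 1), c (j.1 i)).re with hZ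
  have e1 : ∀ n : ℕ, 0 ≤ ((n : ℝ) + 2) ^ (2 * k + 1) * ‖c ((n : ℤ) + 2)‖ ^ (2 * k) :=
    fun n => by positivity
  have e2 : ∀ N : ℕ, ∑ n ∈ Finset.range N,
      ((n : ℝ) + 2) ^ (2 * k + 1) * ‖c ((n : ℤ) + 2)‖ ^ (2 * k) ≤ C * Z := by
    intro N
    refine le_trans ?_ (hJ N).2
    have h6 : ∑ n ∈ Finset.range N,
      ((n : ℝ) + 2) ^ (2 * k + 1) * ‖c ((n : ℤ) + 2)‖ ^ (2 * k) =
      ∑ q ∈ Finset.Ico (2 : ℕ) (2 + N), (q : ℝ) ^ (2 * k + 1) * ‖c (q : ℤ)‖ ^ (2 * k) := by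
      rw [Finset.sum_Ico_eq_sum_range, Nat.add_sub_cancel_left]
      refine Finset.sum_congr rfl fun n _ => ?_
      rw [show ((2 + n : ℕ) : ℝ) = (n : ℝ) + 2 by push_cast; ring,
        show ((2 + n : ℕ) : ℤ) = (n : ℤ) + 2 by push_cast; ring]
    rw [h6]
    refine Finset.sum_le_sum_of_subset_of_nonneg (Finset.Ico_subset_Ico le_rfl ?_)
      fun q _ _ => by positivity
    have := Nat.lt_two_pow_self (n := N)
    omega
  have e3 : ∀ j : ℕ, 0 ≤ ((2 : ℝ) ^ j) ^ (2 * k + 1) *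
        (∑ q ∈ Finset.Ico (2 * (2 : ℤ) ^ j) (4 * 2 ^ j), ‖c q‖ ^ 2) ^ k := fun j => by positivity
  have e4 := fun N => (hJ N).1
  refine ⟨h4 m c hev hd, him, summable_of_sum_range_le e1 e2, ?_,
    summable_of_sum_range_le e3 e4, ?_⟩
  · rw [inv_mul_le_iff₀ hC]
    exact Real.tsum_le_of_sum_range_le e1 e2
  · rw [inv_mul_le_iff₀ hC]
    exact Real.tsum_le_of_sum_range_le e3 e4

end

end Run7.h747.ZB
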